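import Pool.Agent.H15.G.R_seed8.Y205.AV.Greedy
import Pool.Agent.H15.G.R_seed8.TH146.MN.Rep

/-! Emptiness for arbitrary multisets. -/

set_option autoImplicit false

namespace Pool.Agent.Y205.AV

open Finset Pool.Agent.TH176.Nag Pool.Agent.TH603.Sur Pool.Agent.TH745.MN Pool.Agent.TH2.NU
open H932R3 Pool.Agent.TH641.UM Pool.Agent.TH146.MN

/-- the sum of the squares -/
def sqs (M : Multiset ℕ) : ℕ := (M.map fun v => v ^ 2).sum

theorem sqs_cons (v : ℕ) (M : Multiset ℕ) : sqs (v ::ₘ M) = v ^ 2 + sqs M := by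
  unfold sqs
  rw [Multiset.map_cons, Multiset.sum_cons]

theorem sqs_add (M N : Multiset ℕ) : sqs (M + N) = sqs M + sqs N := by
  unfold sqs
  rw [Multiset.map_add, Multiset.sum_add]

theorem sqs_le {N : Multiset ℕ} {m : ℕ} (h : ∀ x ∈ N, x ≤ m) : sqs N ≤ N.card * m ^ 2 := by
  induction N using Multiset.induction_on with
  | empty => simp [sqs]
  | cons a N ih =>
    rw [Multiset.card_cons, sqs_cons]
    have h1 := ih fun x hx => h x (Multiset.mem_cons_of_mem hx)
    have h2 : a ^ 2 ≤ m ^ 2 := Nat.pow_le_pow_left (h a (Multiset.mem_cons_self a N)) 2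
    have e : (N.card + 1) * m ^ 2 = N.card * m ^ 2 + m ^ 2 := by ring
    omega

theorem EmpM_raise1 {b b' : ℕ} (hb : b ≤ b') {M : Multiset ℕ} {S : Set (ℤ × ℤ)}
    (h : EmpM (b ::ₘ M) S) : EmpM (b' ::ₘ M) S := by
  rw [← Multiset.singleton_add, ← one_smul ℕ ({b} : Multiset ℕ)] at h
  rw [← Multiset.singleton_add, ← one_smul ℕ ({b'} : Multiset ℕ)]
  exact EmpM.raise hb h

/-- members replaced by larger ones -/
theorem EmpM_raises {S : Set (ℤ × ℤ)} {b : ℕ} (N : Multiset ℕ) : ∀ {M : Multiset ℕ},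
    (∀ x ∈ N, b ≤ x) → EmpM (Multiset.replicate N.card b + M) S → EmpM (N + M) S := by
  induction N using Multiset.induction_on with
  | empty => intro M _ h; simpa using h
  | cons a N ih =>
    intro M hN h
    rw [Multiset.card_cons, Multiset.replicate_succ, Multiset.cons_add] at h
    have h1 := EmpM_raise1 (hN a (Multiset.mem_cons_self a N)) h
    rw [← Multiset.add_cons] at h1
    have h2 := ih (M := a ::ₘ M) (fun x hx => hN x (Multiset.mem_cons_of_mem hx)) h1
    rw [Multiset.add_cons] at h2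
    rw [Multiset.cons_add]
    exact h2

/-- the groups, rounded down -/
theorem group_down {g : ℕ} (hg : 1 ≤ g) : ∀ (n : ℕ) (M : Multiset ℕ) (b : ℕ), M.card ≤ n →
    (∀ v ∈ M, 1 ≤ v ∧ v ≤ b) →
    ∃ xs : Multiset ℕ, (∀ x ∈ xs, 1 ≤ x ∧ x ≤ b) ∧ sqs M ≤ g * sqs xs + g * b ^ 2 ∧
      ∀ (S : Set (ℤ × ℤ)) (E : Multiset ℕ),
        EmpM ((xs.bind fun x => Multiset.replicate g x) + E) S → EmpM (M + E) S := by
  intro n
  induction n with
  | zero =>
    intro M b hn _
    have h0 : M = 0 := Multiset.card_eq_zero.1 (Nat.le_zero.1 hn)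
    subst h0
    exact ⟨0, by simp, by simp [sqs], fun S E h => by simpa using h⟩
  | succ n ih =>
    intro M b hn hM
    rcases Nat.lt_or_ge M.card g with hlt | hge
    · refine ⟨0, by simp, ?_, fun S E h => ?_⟩
      · have h1 := sqs_le fun x hx => (hM x hx).2
        have h2 : M.card * b ^ 2 ≤ g * b ^ 2 := Nat.mul_le_mul_right _ hlt.le
        omega
      · rw [Multiset.zero_bind, zero_add] at h
        exact h.mono (Multiset.le_add_left _ _)
    · obtain ⟨N, R, h1, h2, h3⟩ := exists_top g hge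
      have hNpos : 0 < N.card := by omega
      obtain ⟨m, N', hN', hm⟩ := exists_min_cons hNpos
      have hmN : m ∈ N := by rw [hN']; exact Multiset.mem_cons_self _ _
      have hNM : ∀ x ∈ N, x ∈ M := fun x hx => by rw [h1]; exact Multiset.mem_add.2 (Or.inl hx)
      have hRM : ∀ x ∈ R, x ∈ M := fun x hx => by rw [h1]; exact Multiset.mem_add.2 (Or.inr hx)
      have hc : M.card = N.card + R.card := by rw [h1, Multiset.card_add]
      obtain ⟨xs, a1, a2, a3⟩ := ih R m (by omega) (fun y hy =>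
        ⟨(hM y (hRM y hy)).1, h3 m hmN y hy⟩)
      refine ⟨m ::ₘ xs, ?_, ?_, ?_⟩
      · intro x hx
        rcases Multiset.mem_cons.1 hx with rfl | hx
        · exact hM x (hNM x hmN)
        · have g1 := a1 x hx
          have g2 := (hM m (hNM m hmN)).2
          exact ⟨g1.1, g1.2.trans g2⟩
      · rw [sqs_cons, h1, sqs_add, mul_add]
        have g2 := sqs_le (N := N) (m := b) (fun x hx => (hM x (hNM x hx)).2)
        rw [h2] at g2
        omega
      · intro S E h
        rw [Multiset.cons_bind, add_assoc, ← h2] at h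
        have h4 := EmpM_raises (b := m) N (fun x hx => by
            rw [hN'] at hx
            rcases Multiset.mem_cons.1 hx with rfl | hx
            · exact le_rfl
            · exact hm x hx) h
        rw [h2] at h4
        have e1 : N + ((xs.bind fun x => Multiset.replicate g x) + E) =
            (xs.bind fun x => Multiset.replicate g x) + (N + E) := by abel
        rw [e1] at h4
        have h5 := a3 S (N + E) h4
        have e2 : R + (N + E) = M + E := by rw [h1]; abel
        rwa [e2] at h5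

theorem sum_get' {α : Type*} [AddCommMonoid α] (M : Multiset ℕ) (f : ℕ → α) :
    ∑ j : Fin M.toList.length, f (M.toList.get j) = (M.map f).sum := by
  have h := Fin.sum_univ_fun_getElem M.toList f
  simp only [List.get_eq_getElem]
  rw [h]
  conv_rhs => rw [← Multiset.coe_toList M, Multiset.map_coe, Multiset.sum_coe]

theorem EmpM_rep (xs : Multiset ℕ) {B e : ℕ} (h1 : ∀ x ∈ xs, 1 ≤ x ∧ x ≤ B)
    (h36 : 36 * B ^ 2 ≤ 16 * sqs xs) (he : e ^ 2 < 16 * sqs xs) :
    EmpM (xs.bind fun x => Multiset.replicate 16 x) (TZ e) := by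
  classical
  have hmem : ∀ j : Fin xs.toList.length, xs.toList.get j ∈ xs := fun j => by
    rw [← Multiset.mem_toList]
    exact List.get_mem _ _
  obtain ⟨w, hw⟩ : ∃ w : (Σ _ : Fin xs.toList.length, Fin 16) → ℕ, w = fun z =>
    xs.toList.get z.1 := ⟨_, rfl⟩
  have hwB : ∀ z, 1 ≤ w z ∧ w z ≤ B := fun z => by rw [hw]; exact h1 _ (hmem z.1)
  have hsum : ∑ z, w z ^ 2 = 16 * sqs xs := by
    rw [hw, Fintype.sum_sigma]
    simp only [sum_const, card_univ, Fintype.card_fin, smul_eq_mul]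
    rw [← mul_sum, sum_get' xs fun x => x ^ 2]
    rfl
  have hne : xs.card ≠ 0 := by
    intro h0
    rw [Multiset.card_eq_zero] at h0
    subst h0
    simp [sqs] at he
  have hpos : 0 < xs.toList.length := by rw [Multiset.length_toList]; omega
  obtain ⟨z0, -, hz0⟩ := exists_max_image (univ : Finset (Σ _ : Fin xs.toList.length, Fin 16)) w
    ⟨⟨⟨0, hpos⟩, 0⟩, mem_univ _⟩
  have hpos' : ∀ z, (0 : ℝ) < (w z : ℝ) := fun z => by
    have := (hwB z).1
    exact_mod_cast this
  have hU := U_rep (Fintype.card (Σ _ : Fin xs.toList.length, Fin 16)) (fun z => (w z : ℝ))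
    (w z0 : ℝ) le_rfl hpos' (fun z => by exact_mod_cast hz0 z (mem_univ z)) ⟨z0, rfl⟩ (by
      intro z
      have hinj : Function.Injective (fun i : Fin 16 =>
          (⟨⟨z.1, i⟩, by rw [hw]⟩ : {y : (Σ _ : Fin xs.toList.length, Fin 16) //
            (w y : ℝ) = (w z : ℝ)})) := by
        intro i j hij
        have := congrArg Subtype.val hij
        simpa using this
      have := Fintype.card_le_of_injective _ hinj
      simpa using this)
  obtain ⟨c, hc⟩ : ∃ c : ℝ, c = √((16 * sqs xs : ℕ) : ℝ) := ⟨_, rfl⟩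
  have hc2 : c ^ 2 = ((16 * sqs xs : ℕ) : ℝ) := by rw [hc, Real.sq_sqrt (Nat.cast_nonneg _)]
  have hc0 : 0 ≤ c := by rw [hc]; exact Real.sqrt_nonneg _
  have hBc : 6 * (B : ℝ) ≤ c := by
    refine le_of_sq_le_sq ?_ hc0
    rw [hc2]
    have : ((36 * B ^ 2 : ℕ) : ℝ) ≤ ((16 * sqs xs : ℕ) : ℝ) := by exact_mod_cast h36
    have e : (6 * (B : ℝ)) ^ 2 = ((36 * B ^ 2 : ℕ) : ℝ) := by push_cast; ring
    rw [e]
    exact this
  have hec : (e : ℝ) < c := by
    refine lt_of_pow_lt_pow_left₀ 2 hc0 ?_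
    rw [hc2]
    exact_mod_cast he
  have key := star_rep (x := fun z => (w z : ℝ)) (c := c) (W := (w z0 : ℝ)) hpos' ⟨z0, rfl⟩
    (by
      have : (w z0 : ℝ) ≤ B := by exact_mod_cast (hwB z0).2
      linarith)
    (by
      rw [hc2, ← hsum]
      push_cast
      rfl) hU w e (fun z => by
      rw [mul_comm]
      exact mul_lt_mul_of_pos_right hec (hpos' z))
  refine (EmpM_iff (w := w) ?_ _).2 key
  rw [hw]
  unfold ms
  rw [Fintype.sum_sigma]
  have e : ∀ j : Fin xs.toList.length, ∑ _i : Fin 16, ({xs.toList.get j} : Multiset ℕ) =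
      Multiset.replicate 16 (xs.toList.get j) := fun j => by
    rw [sum_const, card_univ, Fintype.card_fin, Multiset.nsmul_singleton]
  rw [sum_congr rfl fun j _ => e j, sum_get' xs fun x => Multiset.replicate 16 x]
  rfl

/-- **Emptiness for arbitrary multiplicities.** -/
theorem EmpM_arb {M : Multiset ℕ} {B e : ℕ} (hB : ∀ v ∈ M, 1 ≤ v ∧ v ≤ B) (hB1 : 1 ≤ B)
    (h : e ^ 2 + 52 * B ^ 2 ≤ sqs M) : EmpM M (TZ e) := by
  obtain ⟨xs, a1, a2, a3⟩ := group_down (g := 16) (by norm_num) M.card M B le_rfl hB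
  have h3 := a3 (TZ e) 0
  rw [add_zero, add_zero] at h3
  have hB2 : 1 ≤ B ^ 2 := Nat.one_le_pow _ _ hB1
  exact h3 (EmpM_rep xs a1 (by omega) (by omega))

end Pool.Agent.Y205.AV
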