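import Pool.Agent.H15.G.R_seed8.TH745.MN.Calc

/-! Independence for arbitrary multisets: merging the smallest members, and groups. -/

set_option autoImplicit false

namespace Pool.Agent.Y205.AV

open Finset Pool.Agent.TH176.Nag Pool.Agent.TH603.Sur Pool.Agent.TH745.MN Pool.Agent.TH2.NU

/-- the sum of the squares of the numbers `v + 1` -/
def sq1 (M : Multiset ℕ) : ℕ := (M.map fun v => (v + 1) ^ 2).sum

theorem sq1_zero : sq1 0 = 0 := rfl

theorem sq1_cons (v : ℕ) (M : Multiset ℕ) : sq1 (v ::ₘ M) = (v + 1) ^ 2 + sq1 M := by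
  unfold sq1
  rw [Multiset.map_cons, Multiset.sum_cons]

theorem sq1_add (M N : Multiset ℕ) : sq1 (M + N) = sq1 M + sq1 N := by
  unfold sq1
  rw [Multiset.map_add, Multiset.sum_add]

theorem sq1_replicate (n v : ℕ) : sq1 (Multiset.replicate n v) = n * (v + 1) ^ 2 := by
  unfold sq1
  rw [Multiset.map_replicate, Multiset.sum_replicate, smul_eq_mul]

theorem SurM_lower1 {b b' : ℕ} (hb : b' ≤ b) {M : Multiset ℕ} {S : Set (ℤ × ℤ)}
    (h : SurM (b ::ₘ M) S) : SurM (b' ::ₘ M) S := by
  rw [← Multiset.singleton_add, ← one_smul ℕ ({b} : Multiset ℕ)] at h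
  rw [← Multiset.singleton_add, ← one_smul ℕ ({b'} : Multiset ℕ)]
  exact SurM.lower hb h

/-- members replaced by smaller ones -/
theorem SurM_lowers {S : Set (ℤ × ℤ)} {b : ℕ} (N : Multiset ℕ) : ∀ {M : Multiset ℕ},
    (∀ x ∈ N, x ≤ b) → SurM (Multiset.replicate N.card b + M) S → SurM (N + M) S := by
  induction N using Multiset.induction_on with
  | empty => intro M _ h; simpa using h
  | cons a N ih =>
    intro M hN h
    rw [Multiset.card_cons, Multiset.replicate_succ, Multiset.cons_add] at h
    have h1 := SurM_lower1 (hN a (Multiset.mem_cons_self a N)) h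
    rw [← Multiset.add_cons] at h1
    have h2 := ih (M := a ::ₘ M) (fun x hx => hN x (Multiset.mem_cons_of_mem hx)) h1
    rw [Multiset.add_cons] at h2
    rw [Multiset.cons_add]
    exact h2

theorem SurM_drop1 {b : ℕ} {M : Multiset ℕ} {S : Set (ℤ × ℤ)} (h : SurM (b ::ₘ M) S) :
    SurM M S := by
  have h1 := SurM_lower1 (Nat.zero_le b) h
  rw [← Multiset.singleton_add, add_comm] at h1
  exact SurM_zero.1 h1

theorem SurM_drop {S : Set (ℤ × ℤ)} (N : Multiset ℕ) : ∀ {M : Multiset ℕ},
    SurM (N + M) S → SurM M S := by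
  induction N using Multiset.induction_on with
  | empty => intro M h; simpa using h
  | cons a N ih =>
    intro M h
    rw [Multiset.cons_add] at h
    exact ih (SurM_drop1 h)

/-- four members `v` from one member `2 v + 1` -/
theorem SurM_four {v : ℕ} {M : Multiset ℕ} {S : Set (ℤ × ℤ)} (h : SurM ((2 * v + 1) ::ₘ M) S) :
    SurM (Multiset.replicate 4 v + M) S := by
  rw [← Multiset.singleton_add, ← one_smul ℕ ({2 * v + 1} : Multiset ℕ)] at h
  have h1 := exMS (by omega) h
  rw [one_smul, r4_eq (by omega)] at h1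
  have e1 : (2 * (2 * v + 1) - 1) / 4 = v := by omega
  have e2 : 2 * (2 * v + 1) / 4 = v := by omega
  have e3 : (2 * (2 * v + 1) + 1) / 4 = v := by omega
  have e4 : (2 * (2 * v + 1) + 2) / 4 = v + 1 := by omega
  rw [e1, e2, e3, e4] at h1
  have e5 : ({v} + {v} + {v} + {v + 1} : Multiset ℕ) + M = (v + 1) ::ₘ ({v} + {v} + {v} + M) := by
    rw [← Multiset.singleton_add]
    abel
  rw [e5] at h1
  have h2 := SurM_lower1 (Nat.le_succ v) h1
  have e6 : v ::ₘ ({v} + {v} + {v} + M) = Multiset.replicate 4 v + M := by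
    simp only [Multiset.replicate_succ, Multiset.replicate_zero, Multiset.cons_add, zero_add,
      ← Multiset.singleton_add]
    abel
  rwa [e6] at h2

theorem exists_min_cons {M : Multiset ℕ} (h : 0 < M.card) :
    ∃ v M', M = v ::ₘ M' ∧ ∀ x ∈ M', v ≤ x := by
  have hne : M ≠ 0 := Multiset.card_pos.1 h
  have hf : M.toFinset.Nonempty := by
    obtain ⟨a, ha⟩ := Multiset.exists_mem_of_ne_zero hne
    exact ⟨a, Multiset.mem_toFinset.2 ha⟩
  obtain ⟨v, hv, hmin⟩ := exists_min_image M.toFinset id hf
  obtain ⟨M', hM'⟩ := Multiset.exists_cons_of_mem (Multiset.mem_toFinset.1 hv)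
  refine ⟨v, M', hM', fun x hx => hmin x ?_⟩
  rw [Multiset.mem_toFinset, hM']
  exact Multiset.mem_cons_of_mem hx

theorem exists_max_cons {M : Multiset ℕ} (h : 0 < M.card) :
    ∃ v M', M = v ::ₘ M' ∧ ∀ x ∈ M', x ≤ v := by
  have hne : M ≠ 0 := Multiset.card_pos.1 h
  have hf : M.toFinset.Nonempty := by
    obtain ⟨a, ha⟩ := Multiset.exists_mem_of_ne_zero hne
    exact ⟨a, Multiset.mem_toFinset.2 ha⟩
  obtain ⟨v, hv, hmax⟩ := exists_max_image M.toFinset id hf
  obtain ⟨M', hM'⟩ := Multiset.exists_cons_of_mem (Multiset.mem_toFinset.1 hv)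
  refine ⟨v, M', hM', fun x hx => hmax x ?_⟩
  rw [Multiset.mem_toFinset, hM']
  exact Multiset.mem_cons_of_mem hx

/-- **Greedy merging.** -/
theorem greedy {S : Set (ℤ × ℤ)} {B A Δ : ℕ}
    (base : ∀ M : Multiset ℕ, (∀ v ∈ M, v + 1 ≤ B ∧ B < 2 * (v + 1)) → sq1 M + A ≤ Δ → SurM M S) :
    ∀ (n : ℕ) (M : Multiset ℕ) (a : ℕ), M.card ≤ n → a ≤ B → (∀ v ∈ M, a ≤ v + 1 ∧ v + 1 ≤ B) →
      sq1 M + 6 * B ^ 2 + A ≤ Δ + 3 * a ^ 2 → SurM M S := by
  intro n
  induction n with
  | zero =>
    intro M a hn haB _ h
    have h0 : M = 0 := Multiset.card_eq_zero.1 (Nat.le_zero.1 hn)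
    subst h0
    have ha2 : a ^ 2 ≤ B ^ 2 := Nat.pow_le_pow_left haB 2
    exact base 0 (by simp) (by omega)
  | succ n ih =>
    intro M a hn haB hM h
    have ha2 : a ^ 2 ≤ B ^ 2 := Nat.pow_le_pow_left haB 2
    by_cases hcard : M.card ≤ 3
    · rcases Nat.eq_zero_or_pos M.card with h0 | h0
      · rw [Multiset.card_eq_zero] at h0
        subst h0
        exact base 0 (by simp) (by omega)
      · have hB1 : 1 ≤ B := by
          obtain ⟨x, hx⟩ := Multiset.card_pos_iff_exists_mem.1 h0
          have := (hM x hx).2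
          omega
        have h1 : SurM (Multiset.replicate M.card (B - 1)) S := by
          refine base _ (fun v hv => ?_) ?_
          · rw [Multiset.eq_of_mem_replicate hv]
            omega
          · rw [sq1_replicate, Nat.sub_add_cancel hB1]
            have : M.card * B ^ 2 ≤ 3 * B ^ 2 := Nat.mul_le_mul_right _ hcard
            omega
        have h2 := SurM_lowers (b := B - 1) M (M := 0) (fun x hx => by
          have := (hM x hx).2
          omega) (by rw [add_zero]; exact h1)
        rwa [add_zero] at h2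
    · obtain ⟨v1, M1, hM1, hv1⟩ := exists_min_cons (M := M) (by omega)
      have c1 : M.card = M1.card + 1 := by rw [hM1, Multiset.card_cons]
      obtain ⟨v2, M2, hM2, hv2⟩ := exists_min_cons (M := M1) (by omega)
      have c2 : M1.card = M2.card + 1 := by rw [hM2, Multiset.card_cons]
      obtain ⟨v3, M3, hM3, hv3⟩ := exists_min_cons (M := M2) (by omega)
      have c3 : M2.card = M3.card + 1 := by rw [hM3, Multiset.card_cons]
      obtain ⟨v4, M4, hM4, hv4⟩ := exists_min_cons (M := M3) (by omega)
      have c4 : M3.card = M4.card + 1 := by rw [hM4, Multiset.card_cons]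
      have m2 : v2 ∈ M1 := by rw [hM2]; exact Multiset.mem_cons_self _ _
      have m3 : v3 ∈ M2 := by rw [hM3]; exact Multiset.mem_cons_self _ _
      have m4 : v4 ∈ M3 := by rw [hM4]; exact Multiset.mem_cons_self _ _
      have l12 := hv1 v2 m2
      have l23 := hv2 v3 m3
      have l34 := hv3 v4 m4
      have n1 : v1 ∈ M := by rw [hM1]; exact Multiset.mem_cons_self _ _
      have n2 : v2 ∈ M := by rw [hM1]; exact Multiset.mem_cons_of_mem m2
      have n3 : v3 ∈ M := by rw [hM1, hM2]; exact Multiset.mem_cons_of_mem (Multiset.mem_cons_of_mem m3)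
      have n4 : v4 ∈ M := by
        rw [hM1, hM2, hM3]
        exact Multiset.mem_cons_of_mem (Multiset.mem_cons_of_mem (Multiset.mem_cons_of_mem m4))
      have nM4 : ∀ x ∈ M4, x ∈ M := by
        intro x hx
        rw [hM1, hM2, hM3, hM4]
        exact Multiset.mem_cons_of_mem (Multiset.mem_cons_of_mem (Multiset.mem_cons_of_mem
          (Multiset.mem_cons_of_mem hx)))
      have hall : M = v1 ::ₘ v2 ::ₘ v3 ::ₘ v4 ::ₘ M4 := by rw [hM1, hM2, hM3, hM4]
      have hs : sq1 M = (v1 + 1) ^ 2 + ((v2 + 1) ^ 2 + ((v3 + 1) ^ 2 + ((v4 + 1) ^ 2 + sq1 M4))) := by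
        rw [hall, sq1_cons, sq1_cons, sq1_cons, sq1_cons]
      have hN : (v1 ::ₘ v2 ::ₘ v3 ::ₘ v4 ::ₘ (0 : Multiset ℕ)) + M4 = M := by
        rw [hall]
        simp only [Multiset.cons_add, zero_add]
      by_cases hsm : 2 * (v4 + 1) ≤ B
      · have hrec : SurM ((2 * v4 + 1) ::ₘ M4) S := by
          refine ih _ (v4 + 1) ?_ (by omega) ?_ ?_
          · rw [Multiset.card_cons]
            omega
          · intro x hx
            rcases Multiset.mem_cons.1 hx with rfl | hx
            · constructor <;> omega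
            · exact ⟨by have := hv4 x hx; omega, (hM x (nM4 x hx)).2⟩
          · rw [sq1_cons]
            have e : (2 * v4 + 1 + 1) ^ 2 = 4 * (v4 + 1) ^ 2 := by ring
            rw [e]
            have g1 : a ^ 2 ≤ (v1 + 1) ^ 2 := Nat.pow_le_pow_left (hM v1 n1).1 2
            have g2 : a ^ 2 ≤ (v2 + 1) ^ 2 := Nat.pow_le_pow_left (hM v2 n2).1 2
            have g3 : a ^ 2 ≤ (v3 + 1) ^ 2 := Nat.pow_le_pow_left (hM v3 n3).1 2
            rw [hs] at h
            omega
        have h1 := SurM_four hrec
        have h2 := SurM_lowers (b := v4) (v1 ::ₘ v2 ::ₘ v3 ::ₘ v4 ::ₘ (0 : Multiset ℕ)) (M := M4)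
          (by
            intro x hx
            simp only [Multiset.mem_cons, Multiset.notMem_zero, or_false] at hx
            rcases hx with rfl | rfl | rfl | rfl <;> omega) (by
            simpa using h1)
        rwa [hN] at h2
      · push Not at hsm
        have hB1 : 1 ≤ B := by
          have := (hM v1 n1).2
          omega
        have h1 : SurM (Multiset.replicate 3 (B - 1) + (v4 ::ₘ M4)) S := by
          refine base _ (fun v hv => ?_) ?_
          · rcases Multiset.mem_add.1 hv with hv | hv
            · rw [Multiset.eq_of_mem_replicate hv]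
              omega
            · rcases Multiset.mem_cons.1 hv with rfl | hv
              · exact ⟨(hM v n4).2, hsm⟩
              · exact ⟨(hM v (nM4 v hv)).2, by have := hv4 v hv; omega⟩
          · rw [sq1_add, sq1_replicate, sq1_cons, Nat.sub_add_cancel hB1]
            rw [hs] at h
            omega
        have h2 := SurM_lowers (b := B - 1) (v1 ::ₘ v2 ::ₘ v3 ::ₘ (0 : Multiset ℕ))
          (M := v4 ::ₘ M4) (by
            intro x hx
            simp only [Multiset.mem_cons, Multiset.notMem_zero, or_false] at hx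
            rcases hx with rfl | rfl | rfl
            · have := (hM x n1).2; omega
            · have := (hM x n2).2; omega
            · have := (hM x n3).2; omega) (by simpa using h1)
        have e : (v1 ::ₘ v2 ::ₘ v3 ::ₘ (0 : Multiset ℕ)) + (v4 ::ₘ M4) = M := by
          rw [hall]
          simp only [Multiset.cons_add, zero_add]
        rwa [e] at h2

/-- the `g` largest members -/
theorem exists_top (g : ℕ) : ∀ {M : Multiset ℕ}, g ≤ M.card →
    ∃ N R, M = N + R ∧ N.card = g ∧ ∀ x ∈ N, ∀ y ∈ R, y ≤ x := by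
  induction g with
  | zero => intro M _; exact ⟨0, M, by simp, by simp, by simp⟩
  | succ g ih =>
    intro M hM
    obtain ⟨N, R, h1, h2, h3⟩ := ih (M := M) (by omega)
    have hc : M.card = N.card + R.card := by rw [h1, Multiset.card_add]
    obtain ⟨v, R', h4, h5⟩ := exists_max_cons (M := R) (by omega)
    refine ⟨v ::ₘ N, R', ?_, ?_, ?_⟩
    · rw [h1, h4, Multiset.add_cons, Multiset.cons_add]
    · rw [Multiset.card_cons, h2]
    · intro x hx y hy
      rcases Multiset.mem_cons.1 hx with rfl | hx
      · exact h5 y hy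
      · exact h3 x hx y (by rw [h4]; exact Multiset.mem_cons_of_mem hy)

theorem sq1_ge {N : Multiset ℕ} {m : ℕ} (h : ∀ x ∈ N, m ≤ x) : N.card * (m + 1) ^ 2 ≤ sq1 N := by
  induction N using Multiset.induction_on with
  | empty => simp [sq1]
  | cons a N ih =>
    rw [Multiset.card_cons, sq1_cons]
    have h1 := ih fun x hx => h x (Multiset.mem_cons_of_mem hx)
    have h2 : (m + 1) ^ 2 ≤ (a + 1) ^ 2 :=
      Nat.pow_le_pow_left (Nat.succ_le_succ (h a (Multiset.mem_cons_self a N))) 2
    have e : (N.card + 1) * (m + 1) ^ 2 = N.card * (m + 1) ^ 2 + (m + 1) ^ 2 := by ring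
    omega

/-- the groups, rounded up -/
theorem group_up {g lo : ℕ} (hg : 1 ≤ g) : ∀ (n : ℕ) (M : Multiset ℕ) (b : ℕ), M.card ≤ n →
    (∀ v ∈ M, lo ≤ v ∧ v + 1 ≤ b) →
    ∃ xs : Multiset ℕ, (∀ x ∈ xs, lo ≤ x ∧ x + 1 ≤ b) ∧ g * sq1 xs ≤ sq1 M + g * b ^ 2 ∧
      ∀ (S : Set (ℤ × ℤ)) (E : Multiset ℕ),
        SurM ((xs.bind fun x => Multiset.replicate g x) + E) S → SurM (M + E) S := by
  intro n
  induction n with
  | zero =>
    intro M b hn _
    have h0 : M = 0 := Multiset.card_eq_zero.1 (Nat.le_zero.1 hn)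
    subst h0
    exact ⟨0, by simp, by simp [sq1], fun S E h => by simpa using h⟩
  | succ n ih =>
    intro M b hn hM
    rcases Nat.lt_or_ge M.card g with hlt | hge
    · rcases Nat.eq_zero_or_pos M.card with h0 | h0
      · rw [Multiset.card_eq_zero] at h0
        subst h0
        exact ⟨0, by simp, by simp [sq1], fun S E h => by simpa using h⟩
      · obtain ⟨v, M', hM', hv⟩ := exists_max_cons h0
        have hvM : v ∈ M := by rw [hM']; exact Multiset.mem_cons_self _ _
        refine ⟨{v}, ?_, ?_, ?_⟩
        · intro x hx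
          rw [Multiset.mem_singleton.1 hx]
          exact hM v hvM
        · have e : sq1 {v} = (v + 1) ^ 2 := by simp [sq1]
          rw [e]
          have := Nat.mul_le_mul_left g (Nat.pow_le_pow_left (hM v hvM).2 2)
          omega
        · intro S E h
          rw [Multiset.singleton_bind] at h
          have e : Multiset.replicate g v + E = Multiset.replicate (g - M.card) v +
              (Multiset.replicate M.card v + E) := by
            rw [← add_assoc, ← Multiset.replicate_add]
            congr 2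
            omega
          rw [e] at h
          exact SurM_lowers (b := v) M (fun x hx => by
            rw [hM'] at hx
            rcases Multiset.mem_cons.1 hx with rfl | hx
            · exact le_rfl
            · exact hv x hx) (SurM_drop _ h)
    · obtain ⟨N, R, h1, h2, h3⟩ := exists_top g hge
      have hNpos : 0 < N.card := by omega
      obtain ⟨m, N', hN', hm⟩ := exists_min_cons hNpos
      obtain ⟨v, N'', hN'', hv⟩ := exists_max_cons hNpos
      have hmN : m ∈ N := by rw [hN']; exact Multiset.mem_cons_self _ _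
      have hvN : v ∈ N := by rw [hN'']; exact Multiset.mem_cons_self _ _
      have hNM : ∀ x ∈ N, x ∈ M := fun x hx => by rw [h1]; exact Multiset.mem_add.2 (Or.inl hx)
      have hRM : ∀ x ∈ R, x ∈ M := fun x hx => by rw [h1]; exact Multiset.mem_add.2 (Or.inr hx)
      have hc : M.card = N.card + R.card := by rw [h1, Multiset.card_add]
      obtain ⟨xs, a1, a2, a3⟩ := ih R (m + 1) (by omega) (fun y hy =>
        ⟨(hM y (hRM y hy)).1, by have := h3 m hmN y hy; omega⟩)
      refine ⟨v ::ₘ xs, ?_, ?_, ?_⟩
      · intro x hx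
        rcases Multiset.mem_cons.1 hx with rfl | hx
        · exact hM x (hNM x hvN)
        · have g1 := a1 x hx
          have g2 := (hM m (hNM m hmN)).2
          exact ⟨g1.1, g1.2.trans g2⟩
      · rw [sq1_cons, h1, sq1_add, mul_add]
        have g1 : g * (v + 1) ^ 2 ≤ g * b ^ 2 :=
          Nat.mul_le_mul_left _ (Nat.pow_le_pow_left (hM v (hNM v hvN)).2 2)
        have g2 := sq1_ge (N := N) (m := m) (fun x hx => by
          rw [hN'] at hx
          rcases Multiset.mem_cons.1 hx with rfl | hx
          · exact le_rfl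
          · exact hm x hx)
        rw [h2] at g2
        omega
      · intro S E h
        rw [Multiset.cons_bind, add_assoc, ← h2] at h
        have h4 := SurM_lowers (b := v) N (fun x hx => by
            rw [hN''] at hx
            rcases Multiset.mem_cons.1 hx with rfl | hx
            · exact le_rfl
            · exact hv x hx) h
        rw [h2] at h4
        have e1 : N + ((xs.bind fun x => Multiset.replicate g x) + E) =
            (xs.bind fun x => Multiset.replicate g x) + (N + E) := by abel
        rw [e1] at h4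
        have h5 := a3 S (N + E) h4
        have e2 : R + (N + E) = M + E := by rw [h1]; abel
        rwa [e2] at h5

end Pool.Agent.Y205.AV
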