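import Pool.Agent.H15.G.R_seed8.Y205.AV.All
import Pool.Agent.H15.G.R_seed8.TH603.Sur.Main

/-! **All multiplicities**: the expected dimension outside a window of the order of the square of
the largest multiplicity, for every vector of multiplicities. -/

set_option autoImplicit false

namespace Pool.Agent.Y205.AV

open Finset Module Pool.Agent.TH176.Nag Pool.Agent.TH603.Sur Pool.Agent.TH745.MN
open Pool.Agent.Y205.MD H932R3 Pool.Agent.Y205.FW

/-- twice the virtual dimension plus two, in absolute value: `|(d + 1) (d + 2) - ∑ w (w + 1)|` -/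
def gap {n : ℕ} (w : Fin n → ℕ) (d : ℕ) : ℕ :=
  ((d + 1) * (d + 2) - ∑ p, w p * (w p + 1)) + (∑ p, w p * (w p + 1) - (d + 1) * (d + 2))

theorem two_sum {n : ℕ} (w : Fin n → ℕ) :
    2 * ∑ p, (w p + 1).choose 2 = ∑ p, w p * (w p + 1) := by
  rw [mul_sum]
  exact sum_congr rfl fun p _ => Pool.Agent.TH2.NU.two_choose (w p)

/-- **Emptiness or independence for all vectors.** -/
theorem dec_all {n : ℕ} {w : Fin n → ℕ} {μ d : ℕ} (hμ : ∀ p, w p ≤ μ)
    (h : 25000 * (μ + 1) ^ 2 ≤ ∑ p, w p + 2 * gap w d) :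
    ((d + 1) * (d + 2) ≤ ∑ p, w p * (w p + 1) → Emp w (TZ d)) ∧
      (∑ p, w p * (w p + 1) ≤ (d + 1) * (d + 2) → Sur w (TZ d)) := by
  classical
  -- the support
  obtain ⟨I, hI⟩ : ∃ I : Finset (Fin n), I = univ.filter fun p => w p ≠ 0 := ⟨_, rfl⟩
  have hmI : ∀ p, p ∈ I ↔ w p ≠ 0 := fun p => by rw [hI]; simp
  obtain ⟨g, hg⟩ : ∃ g : Fin I.card → Fin n, g = fun j => (I.equivFin.symm j : Fin n) := ⟨_, rfl⟩
  have hginj : Function.Injective g := by
    rw [hg]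
    exact fun j j' h => I.equivFin.symm.injective (Subtype.ext h)
  have hgI : ∀ j, g j ∈ I := fun j => by rw [hg]; exact (I.equivFin.symm j).2
  have hgs : ∀ p, w p ≠ 0 → ∃ j, g j = p := fun p hp =>
    ⟨I.equivFin ⟨p, (hmI p).2 hp⟩, by rw [hg]; simp⟩
  obtain ⟨v, hv⟩ : ∃ v : Fin I.card → ℕ, v = fun j => w (g j) := ⟨_, rfl⟩
  have hsum : ∀ t : ℕ → ℕ, t 0 = 0 → ∑ j, t (v j) = ∑ p, t (w p) := by
    intro t ht
    have h1 : ∑ j, t (v j) = ∑ p ∈ I, t (w p) := by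
      rw [hv, hg, ← Finset.sum_coe_sort I fun p => t (w p)]
      exact I.equivFin.symm.sum_comp fun p : I => t (w p)
    rw [h1]
    refine sum_subset (subset_univ I) fun p _ hp => ?_
    rw [hmI, not_not] at hp
    rw [hp, ht]
  have hgap : gap v d = gap w d := by
    unfold gap
    rw [hsum (fun x => x * (x + 1)) rfl]
  have hvpos : ∀ j, 1 ≤ v j := fun j => by
    have := (hmI (g j)).1 (hgI j)
    rw [hv]
    exact Nat.one_le_iff_ne_zero.2 this
  have hex : Ex (Pool.Agent.TH387.SH.TF d) v := by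
    refine ex_all (μ := μ) (δ := gap w d) hvpos (fun j => by rw [hv]; exact hμ _) ?_ ?_
    · rw [two_sum, ← hgap]
      unfold gap
      omega
    · rw [hsum (fun x => x) rfl]
      exact h
  have h2 := two_sum v
  have h3 := hsum (fun x => x * (x + 1)) rfl
  have hTF : 2 * (Pool.Agent.TH387.SH.TF d).card = (d + 1) * (d + 2) := by
    rw [Pool.Agent.TH387.SH.card_TF]
    exact Pool.Agent.TH2.NU.two_choose (d + 1)
  constructor
  · intro hle
    have hE : Emp v (↑(Pool.Agent.TH387.SH.TF d) : Set (ℤ × ℤ)) := Emp_of_Ex hex (by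
      unfold Pool.Agent.TH603.Sur.cond
      omega)
    rw [Pool.Agent.TH387.SH.coe_TF] at hE
    exact Emp_emb g hginj (fun j => by rw [hv]) hE
  · intro hle
    have hS : Sur v (↑(Pool.Agent.TH387.SH.TF d) : Set (ℤ × ℤ)) := Sur_of_Ex hex (by
      unfold Pool.Agent.TH603.Sur.cond
      omega)
    rw [Pool.Agent.TH387.SH.coe_TF] at hS
    exact Pool.Agent.TH745.MN.Sur_emb g hginj (fun j => by rw [hv]) hgs hS

/-- **All vectors of multiplicities.** -/
theorem all_vectors {n : ℕ} (w : Fin n → ℕ) :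
    ∃ F : MvPolynomial (Fin n × Fin 2) ℚ, F ≠ 0 ∧ ∀ {L : Type} [Field L] [CharZero L]
      (P : Fin n → Fin 2 → L), MvPolynomial.aeval (fun ij : Fin n × Fin 2 => P ij.1 ij.2) F ≠ 0 →
      ∀ d μ : ℕ, (∀ p, w p ≤ μ) → 25000 * (μ + 1) ^ 2 ≤ ∑ p, w p + 2 * gap w d →
        ExpDim L w P d := by
  obtain ⟨F, h1, h2⟩ := expDim_two (w := w)
    (A := fun d => (d + 1) * (d + 2) ≤ ∑ p, w p * (w p + 1) ∧
      ∃ μ, (∀ p, w p ≤ μ) ∧ 25000 * (μ + 1) ^ 2 ≤ ∑ p, w p + 2 * gap w d)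
    (B := fun d => ∑ p, w p * (w p + 1) ≤ (d + 1) * (d + 2) ∧
      ∃ μ, (∀ p, w p ≤ μ) ∧ 25000 * (μ + 1) ^ 2 ≤ ∑ p, w p + 2 * gap w d)
    (N := ∑ p, w p * (w p + 1))
    (fun d hd => by
      have h := hd.1
      have e : (d + 1) * (d + 2) = d * d + 3 * d + 2 := by ring
      omega)
    (fun d hd => by
      obtain ⟨h, μ, hμ, hd⟩ := hd
      exact (dec_all hμ hd).1 h)
    (fun d hd => by
      obtain ⟨h, μ, hμ, hd⟩ := hd
      exact (dec_all hμ hd).2 h)
  refine ⟨F, h1, fun {L} _ _ P hP d μ hμ hd => h2 P hP d ?_⟩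
  rcases le_total ((d + 1) * (d + 2)) (∑ p, w p * (w p + 1)) with h | h
  · exact Or.inl ⟨h, μ, hμ, hd⟩
  · exact Or.inr ⟨h, μ, hμ, hd⟩

end Pool.Agent.Y205.AV
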