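import Pool.Agent.H15.G.R_seed8.Y205.AV.Win
import Pool.Agent.H15.G.R_seed8.Y205.FW.Inf
import Pool.Agent.H15.G.R_seed8.Y205.MD.Sub

/-! The three ranges in which a vector of multiplicities is nonspecial. -/

set_option autoImplicit false

namespace Pool.Agent.Y205.AV

open Finset H932R3

theorem gap_abs {n : ℕ} (w : Fin n → ℕ) (d : ℕ) :
    ((gap w d : ℕ) : ℤ) = |((d : ℤ) + 1) * (d + 2) - ∑ i, (w i : ℤ) * (w i + 1)| := by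
  have h : ((d : ℤ) + 1) * (d + 2) - ∑ i, (w i : ℤ) * (w i + 1) =
      (((d + 1) * (d + 2) : ℕ) : ℤ) - ((∑ i, w i * (w i + 1) : ℕ) : ℤ) := by
    push_cast
    ring
  rw [h]
  unfold gap
  rcases le_total ((d + 1) * (d + 2)) (∑ i, w i * (w i + 1)) with h1 | h1
  · have h2 : (((d + 1) * (d + 2) : ℕ) : ℤ) ≤ ((∑ i, w i * (w i + 1) : ℕ) : ℤ) := by
      exact_mod_cast h1
    rw [abs_of_nonpos (by linarith), Nat.sub_eq_zero_of_le h1, zero_add, Nat.cast_sub h1]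
    ring
  · have h2 : ((∑ i, w i * (w i + 1) : ℕ) : ℤ) ≤ (((d + 1) * (d + 2) : ℕ) : ℤ) := by
      exact_mod_cast h1
    rw [abs_of_nonneg (by linarith), Nat.sub_eq_zero_of_le h1, add_zero, Nat.cast_sub h1]

/-- one of the three ranges -/
def Range3 {n : ℕ} (w : Fin n → ℕ) (d : ℕ) : Prop :=
  ∃ μ s : ℕ, (∀ i, w i ≤ μ) ∧ (univ.image w).card ≤ s ∧
    (Big w μ d ∨ 40000 * s * μ ^ 2 ≤ ∑ i, w i ^ 2 ∨ (2 ≤ μ ∧ 150 * μ ^ 3 ≤ ∑ i, w i))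

theorem three_ranges {n : ℕ} (hn : 1 ≤ n) (w : Fin n → ℕ) (hpos : ∀ i, 1 ≤ w i) :
    ∃ F : MvPolynomial (Fin n × Fin 2) ℚ, F ≠ 0 ∧ ∀ {L : Type} [Field L] [CharZero L]
      (P : Fin n → Fin 2 → L), MvPolynomial.aeval (fun ij : Fin n × Fin 2 => P ij.1 ij.2) F ≠ 0 →
      ∀ d : ℕ, Range3 w d → ExpDim L w P d := by
  classical
  obtain ⟨F1, hF1, h1⟩ := big_vectors w
  have p2 : ∃ F : MvPolynomial (Fin n × Fin 2) ℚ, F ≠ 0 ∧ ∀ {L : Type} [Field L] [CharZero L]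
      (P : Fin n → Fin 2 → L), MvPolynomial.aeval (fun ij : Fin n × Fin 2 => P ij.1 ij.2) F ≠ 0 →
      (∃ μ s : ℕ, (∀ i, w i ≤ μ) ∧ (univ.image w).card ≤ s ∧ 40000 * s * μ ^ 2 ≤ ∑ i, w i ^ 2) →
      ∀ d : ℕ, ExpDim L w P d := by
    by_cases hex : ∃ μ s : ℕ, (∀ i, w i ≤ μ) ∧ (univ.image w).card ≤ s ∧
        40000 * s * μ ^ 2 ≤ ∑ i, w i ^ 2
    · obtain ⟨μ, s, a1, a2, a3⟩ := hex
      obtain ⟨F, hF, h⟩ := Pool.Agent.Y205.FW.inf_all hn hpos a1 a2 a3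
      exact ⟨F, hF, fun {L} _ _ P hP _ d => h P hP d⟩
    · exact ⟨1, one_ne_zero, fun {L} _ _ P _ h d => absurd h hex⟩
  have p3 : ∃ F : MvPolynomial (Fin n × Fin 2) ℚ, F ≠ 0 ∧ ∀ {L : Type} [Field L] [CharZero L]
      (P : Fin n → Fin 2 → L), MvPolynomial.aeval (fun ij : Fin n × Fin 2 => P ij.1 ij.2) F ≠ 0 →
      (∃ μ : ℕ, (∀ i, w i ≤ μ) ∧ 2 ≤ μ ∧ 150 * μ ^ 3 ≤ ∑ i, w i) →
      ∀ d : ℕ, ExpDim L w P d := by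
    by_cases hex : ∃ μ : ℕ, (∀ i, w i ≤ μ) ∧ 2 ≤ μ ∧ 150 * μ ^ 3 ≤ ∑ i, w i
    · obtain ⟨μ, a1, a2, a3⟩ := hex
      obtain ⟨F, hF, h⟩ := Pool.Agent.Y205.MD.all_vectors a2 a1
      exact ⟨F, hF, fun {L} _ _ P hP _ d => h P hP d (Or.inl a3)⟩
    · exact ⟨1, one_ne_zero, fun {L} _ _ P _ h d => absurd h hex⟩
  obtain ⟨F2, hF2, h2⟩ := p2
  obtain ⟨F3, hF3, h3⟩ := p3
  refine ⟨F1 * (F2 * F3), mul_ne_zero hF1 (mul_ne_zero hF2 hF3), fun {L} _ _ P hP d hd => ?_⟩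
  rw [map_mul, map_mul] at hP
  have q1 := left_ne_zero_of_mul hP
  have q2 := left_ne_zero_of_mul (right_ne_zero_of_mul hP)
  have q3 := right_ne_zero_of_mul (right_ne_zero_of_mul hP)
  obtain ⟨μ, s, a1, a2, a3 | a3 | a3⟩ := hd
  · exact h1 P q1 d μ a1 a3
  · exact h2 P q2 ⟨μ, s, a1, a2, a3⟩ d
  · exact h3 P q3 ⟨μ, a1, a3.1, a3.2⟩ d

theorem gap_eq {n : ℕ} (w : Fin n → ℕ) (d : ℕ) :
    ((gap w d : ℕ) : ℤ) =
      2 * |((d + 2).choose 2 : ℤ) - ∑ i, ((w i + 1).choose 2 : ℤ)| := by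
  have h1 := two_sum w
  have h2 : 2 * (d + 2).choose 2 = (d + 1) * (d + 2) := Pool.Agent.TH2.NU.two_choose (d + 1)
  obtain ⟨a, ha⟩ : ∃ a, a = (d + 2).choose 2 := ⟨_, rfl⟩
  obtain ⟨b, hb⟩ : ∃ b, b = ∑ i, (w i + 1).choose 2 := ⟨_, rfl⟩
  have hb' : ∑ i, ((w i + 1).choose 2 : ℤ) = (b : ℤ) := by
    rw [hb]
    push_cast
    rfl
  have hg : gap w d = (2 * a - 2 * b) + (2 * b - 2 * a) := by
    unfold gap
    rw [ha, hb, h1, h2]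
  rw [hb', ← ha, hg]
  rcases abs_cases ((a : ℤ) - (b : ℤ)) with ⟨h, h3⟩ | ⟨h, h3⟩ <;> omega

/-- a bound for the degree -/
theorem deg_lt {n : ℕ} {w : Fin n → ℕ} {μ d : ℕ} (hμ : ∀ i, w i ≤ μ)
    (h : ∑ i, w i + 2 * gap w d < 25000 * (μ + 1) ^ 2) :
    (d + 1) * (d + 2) < 12500 * (μ + 1) ^ 2 * (2 * μ + 3) := by
  have h1 : ∑ i, w i * (w i + 1) ≤ (∑ i, w i) * (μ + 1) := by
    rw [sum_mul]
    exact sum_le_sum fun i _ => Nat.mul_le_mul_left _ (Nat.succ_le_succ (hμ i))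
  have h2 : (∑ i, w i) * (μ + 1) ≤ 25000 * (μ + 1) ^ 2 * (μ + 1) :=
    Nat.mul_le_mul_right _ (by omega)
  have h3 : (d + 1) * (d + 2) ≤ gap w d + ∑ i, w i * (w i + 1) := by
    unfold gap
    omega
  have e : 12500 * (μ + 1) ^ 2 * (2 * μ + 3) =
      25000 * (μ + 1) ^ 2 * (μ + 1) + 12500 * (μ + 1) ^ 2 := by ring
  rw [e]
  omega

end Pool.Agent.Y205.AV
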